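import Pool.Agent.X137.NormQ

set_option autoImplicit false

/-!
`MP_b58525_ag`, Q1: for every `d ≥ 1` there is a Noetherian domain `R` of dimension `d` all of whose
height one primes are associated primes of `R^n / R`.  The domain can be chosen such that its
normalization is a polynomial ring in `d` variables over a field and contains only square roots of
elements of `R`.
-/

namespace Pool.Agent.Results.MP_b58525_ag.PolynomialNormalization

/-- The subring `R` of the domain `S` has the same field of fractions as `S`, and `S` is the
integral closure of `R` in it: `R^n = S`. -/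
def NormalizationIs (S : Type) [CommRing S] [IsDomain S] (R : Subring S) : Prop :=
  IsFractionRing R (FractionRing S) ∧ IsIntegralClosure S R (FractionRing S)

/-- Each prime ideal `P` of `R` of height one is an associated prime of the `R`-module `S / R`:
`P = {r ∈ R | r y ∈ R}` for some `y ∈ S`. -/
def HeightOneAssociated (S : Type) [CommRing S] (R : Subring S) : Prop :=
  ∀ P : Ideal R, P.IsPrime → P.height = 1 → ∃ y : S, ∀ r : R, r ∈ P ↔ (r : S) * y ∈ R

/-- `R` is a Noetherian ring of Krull dimension `d`. -/
def NoetherianOfDim (S : Type) [CommRing S] (R : Subring S) (d : ℕ) : Prop :=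
  IsNoetherianRing R ∧ ringKrullDim R = d

/-- For every `d` there are a field `L` and a subring `R` of `S = L[x_1, …, x_d]` such that `R` is
Noetherian of Krull dimension `d`, `S` is the normalization of `R`, the square of each element of
`S` lies in `R`, and each prime ideal of `R` of height one is an associated prime of the
`R`-module `R^n / R = S / R`. -/
theorem result (d : ℕ) :
    ∃ (L : Type) (_ : Field L) (R : Subring (MvPolynomial (Fin d) L)),
      NoetherianOfDim (MvPolynomial (Fin d) L) R d ∧
      NormalizationIs (MvPolynomial (Fin d) L) R ∧
      (∀ f : MvPolynomial (Fin d) L, f ^ 2 ∈ R) ∧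
      HeightOneAssociated (MvPolynomial (Fin d) L) R := by
  obtain ⟨L, h0, R, h1, h2, h3, h4, h5, h6⟩ := X137.NormQ.main d
  exact ⟨L, h0, R, ⟨h1, h2⟩, ⟨h3, h4⟩, h5, h6⟩

end Pool.Agent.Results.MP_b58525_ag.PolynomialNormalization
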